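import Pool.Graph.R_seed8.H760R3.UnifB

/-!
# Colourings of a set with `n` blocks of each of the sizes `1, 2, 4, …, 2^(ℓ-1)`

Every colouring with at most `n` colours can be permuted to be constant on the blocks.
-/

set_option autoImplicit false

namespace Pool.Agent.KS6_62.Unif

open Finset

/-- the set with `n` blocks of each of the sizes `1, 2, 4, …, 2^(ℓ-1)` -/
abbrev BI (l n : ℕ) : Type := Σ j : Fin l, (Fin n × Fin (2 ^ (j : ℕ)))

/-- the set of the blocks -/
abbrev BJ (l n : ℕ) : Type := Fin l × Fin n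

/-- the block of an element -/
def bk (l n : ℕ) : BI l n → BJ l n := fun x => (x.1, x.2.1)

theorem card_BJ (l n : ℕ) : Fintype.card (BJ l n) = l * n := by simp [BJ]

theorem card_BI (l n : ℕ) : Fintype.card (BI l n) = n * (2 ^ l - 1) := by
  rw [Fintype.card_sigma]
  simp only [Fintype.card_prod, Fintype.card_fin]
  rw [← Finset.mul_sum, Fin.sum_univ_eq_sum_range (fun j => 2 ^ j) l]
  congr 1
  have := Nat.geomSum_eq (le_refl 2) l
  simpa using this

/-- the counts -/
theorem counts {C : Type} [Fintype C] [DecidableEq C] (n : ℕ) (hC : Fintype.card C ≤ n) :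
    ∀ (l : ℕ) (m : C → ℕ), ∑ c, m c = n * (2 ^ l - 1) →
      ∃ k : ℕ → C → ℕ, (∀ j < l, ∑ c, k j c = n) ∧ ∀ c, m c = ∑ j ∈ range l, k j c * 2 ^ j := by
  intro l
  induction l with
  | zero =>
    intro m hm
    refine ⟨fun _ _ => 0, fun j hj => absurd hj (Nat.not_lt_zero _), ?_⟩
    intro c
    have h0 : ∑ c, m c = 0 := by rw [hm]; simp
    simp [(Finset.sum_eq_zero_iff.1 h0) c (mem_univ _)]
  | succ l ih =>
    intro m hm
    obtain ⟨q, hq⟩ : ∃ q, q = 2 ^ l := ⟨_, rfl⟩
    have hq1 : 1 ≤ q := by rw [hq]; exact Nat.one_le_two_pow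
    rw [← hq] at ih
    have e2 : 2 ^ (l + 1) = 2 * q := by rw [hq]; ring
    rw [e2] at hm
    have hsum : n ≤ ∑ c, m c / q := by
      have h1 : ∑ c, m c ≤ ∑ c, (q * (m c / q) + (q - 1)) := by
        apply Finset.sum_le_sum
        intro c _
        have := Nat.div_add_mod (m c) q
        have := Nat.mod_lt (m c) hq1
        omega
      rw [Finset.sum_add_distrib, ← Finset.mul_sum, Finset.sum_const, Finset.card_univ,
        smul_eq_mul, hm] at h1
      have h2 : Fintype.card C * (q - 1) ≤ n * (q - 1) := Nat.mul_le_mul_right _ hC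
      have h3 : n * (2 * q - 1) = n * q + n * (q - 1) := by
        rw [← Nat.mul_add]
        congr 1
        omega
      have h4 : q * n ≤ q * ∑ c, m c / q := by
        have : n * q = q * n := Nat.mul_comm _ _
        omega
      exact Nat.le_of_mul_le_mul_left h4 hq1
    obtain ⟨k0, hk1, hk2⟩ :=
      Pool.Agent.H760R3.Unif.exists_le_sum (univ : Finset C) (fun c => m c / q) n hsum
    have hle : ∀ c, k0 c * q ≤ m c := fun c =>
      le_trans (Nat.mul_le_mul_right _ (hk1 c)) (Nat.div_mul_le_self _ _)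
    have hm' : ∑ c, (m c - k0 c * q) = n * (q - 1) := by
      have h1 : ∑ c, (m c - k0 c * q) + ∑ c, k0 c * q = ∑ c, m c := by
        rw [← Finset.sum_add_distrib]
        exact Finset.sum_congr rfl fun c _ => Nat.sub_add_cancel (hle c)
      rw [← Finset.sum_mul, hk2, hm] at h1
      have h3 : n * (2 * q - 1) = n * q + n * (q - 1) := by
        rw [← Nat.mul_add]
        congr 1
        omega
      omega
    obtain ⟨k, hk3, hk4⟩ := ih _ hm'
    refine ⟨fun j => if j = l then k0 else k j, ?_, ?_⟩
    · intro j hj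
      by_cases h : j = l
      · simp only [h, if_true]
        exact hk2
      · simp only [h, if_false]
        exact hk3 j (by omega)
    · intro c
      rw [Finset.sum_range_succ]
      simp only [if_true]
      have h1 : ∑ x ∈ range l, (if x = l then k0 else k x) c * 2 ^ x
          = ∑ x ∈ range l, k x c * 2 ^ x := by
        apply Finset.sum_congr rfl
        intro x hx
        rw [if_neg (by have := mem_range.1 hx; omega)]
      rw [h1, ← hk4 c, ← hq]
      have := hle c
      omega

theorem exists_perm_of_card {A C : Type} [Fintype A] [DecidableEq C] (f g : A → C)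
    (h : ∀ c, Fintype.card {x // f x = c} = Fintype.card {x // g x = c}) :
    ∃ ρ : Equiv.Perm A, ∀ x, f (ρ x) = g x := by
  classical
  let e : ∀ c, {x // g x = c} ≃ {x // f x = c} := fun c => Fintype.equivOfCardEq (h c).symm
  refine ⟨(Equiv.sigmaFiberEquiv g).symm.trans
    ((Equiv.sigmaCongrRight e).trans (Equiv.sigmaFiberEquiv f)), ?_⟩
  intro x
  exact ((e (g x)) ⟨x, rfl⟩).2

/-- every colouring with at most `n` colours can be permuted to be constant on blocks -/
theorem exists_perm {C : Type} [Fintype C] [DecidableEq C] (l n : ℕ)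
    (hC : Fintype.card C ≤ n) (v : BI l n → C) :
    ∃ (ρ : Equiv.Perm (BI l n)) (u : BJ l n → C), ∀ x, v (ρ x) = u (bk l n x) := by
  classical
  have hsum : ∑ c, Fintype.card {x // v x = c} = n * (2 ^ l - 1) := by
    rw [← card_BI, ← Fintype.card_sigma]
    exact Fintype.card_congr (Equiv.sigmaFiberEquiv v)
  obtain ⟨k, hk1, hk2⟩ := counts n hC l (fun c => Fintype.card {x // v x = c}) hsum
  have E : ∀ j : Fin l, Nonempty (Fin n ≃ Σ c, Fin (k j c)) := by
    intro j
    refine ⟨Fintype.equivOfCardEq ?_⟩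
    rw [Fintype.card_sigma]
    simp [hk1 j j.2]
  let e : ∀ j : Fin l, Fin n ≃ Σ c, Fin (k j c) := fun j => (E j).some
  let u : BJ l n → C := fun y => (e y.1 y.2).1
  have hu : ∀ c, Fintype.card {x // v x = c} = Fintype.card {x // u (bk l n x) = c} := by
    intro c
    have h1 := hk2 c
    rw [h1, Fintype.card_subtype, Finset.card_filter, Fintype.sum_sigma,
      ← Fin.sum_univ_eq_sum_range (fun j => k j c * 2 ^ j) l]
    refine Finset.sum_congr rfl fun j _ => ?_
    rw [Fintype.sum_prod_type]
    have h2 : ∀ a : Fin n, ∑ b : Fin (2 ^ (j : ℕ)), (if u (bk l n ⟨j, (a, b)⟩) = c then 1 else 0)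
        = (if (e j a).1 = c then 1 else 0) * 2 ^ (j : ℕ) := by
      intro a
      show ∑ b : Fin (2 ^ (j : ℕ)), (if (e j a).1 = c then 1 else 0) = _
      rw [Finset.sum_const, Finset.card_univ, Fintype.card_fin, smul_eq_mul, mul_comm]
    rw [Finset.sum_congr rfl fun a _ => h2 a, ← Finset.sum_mul]
    congr 1
    rw [Equiv.sum_comp (e j) (fun y => if y.1 = c then 1 else 0), Fintype.sum_sigma,
      Finset.sum_eq_single c]
    · simp
    · intro b _ hb
      simp [hb]
    · intro h
      exact absurd (mem_univ c) h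
  obtain ⟨ρ, hρ⟩ := exists_perm_of_card v (fun x => u (bk l n x)) hu
  exact ⟨ρ, u, hρ⟩

end Pool.Agent.KS6_62.Unif
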