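import Pool.Graph.R_seed8.H760R3.UnifC

/-!
# Uniform families of group elements for the action of `(∏ F_p^I) ⋊ Sym(I)` on `Sym(I) × ∏ F_p^J`

The lower bound of the library for uniform subsets, extended to families (multisets), and the
faithfulness of the action.
-/

set_option autoImplicit false

namespace Pool.Agent.KS6_62.Unif

open Finset Pool.Agent.H760R3.Unif

variable {k : ℕ} {p : Fin k → ℕ} {I J : Type}
variable [Fintype I] [DecidableEq I] [Fintype J] [DecidableEq J]

theorem key [∀ i, Fact (p i).Prime] (κ : I → J)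
    (hcol : ∀ (i : Fin k) (v : I → ZMod (p i)),
      ∃ (ρ : Equiv.Perm I) (u : J → ZMod (p i)), ∀ x, v (ρ x) = u (κ x))
    {ι : Type} (T : Finset ι) (F : ι → Gp k p I) (N : ℕ) (hN : 0 < N)
    (hT : ∀ x y : Pt k p I J, ∀ [DecidablePred (fun g : ι => (act κ).smul (F g) x = y)],
      (T.filter (fun g => (act κ).smul (F g) x = y)).card * N = T.card)
    (τ : Equiv.Perm I) (i : Fin k) [DecidablePred (fun g : ι => (F g).s = τ)] :
    (p i) ^ (Fintype.card I) ∣ (T.filter (fun g => (F g).s = τ)).card := by
  classical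
  refine pow_dvd_card _ (fun g : ι => (F g).a i) ?_
  intro v hv c
  obtain ⟨ρ, u, hu⟩ := hcol i v
  have hu0 : u ≠ 0 := by
    rintro rfl
    apply hv
    funext x
    have := hu (ρ.symm x)
    simpa using this
  set x0 : Pt k p I J := ⟨τ⁻¹ * ρ, fun _ _ => 0⟩ with hx0
  have hiff : ∀ (g : Gp k p I) (w : (i : Fin k) → J → ZMod (p i)),
      (act κ).smul g x0 = (⟨ρ, w⟩ : Pt k p I J) ↔ (g.s = τ ∧ S κ g.a ρ = w) := by
    intro g w
    constructor
    · intro h
      have h1 : g.s * (τ⁻¹ * ρ) = ρ := by
        have := congrArg Pt.s h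
        rwa [act_s] at this
      have h2 : g.s = τ := by
        have : g.s * τ⁻¹ = 1 := by
          have h3 : g.s * τ⁻¹ * ρ = 1 * ρ := by rw [mul_assoc, h1, one_mul]
          exact mul_right_cancel h3
        exact mul_inv_eq_one.1 this
      refine ⟨h2, ?_⟩
      have h3 := congrArg Pt.z h
      rw [act_z] at h3
      have h4 : g.s * x0.s = ρ := h1
      rw [h4] at h3
      have h5 : (fun i j => x0.z i j + S κ g.a ρ i j) = S κ g.a ρ := by
        funext i j
        simp [hx0]
      rw [h5] at h3
      exact h3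
    · rintro ⟨h1, h2⟩
      have h4 : g.s * x0.s = ρ := by
        rw [hx0]
        show g.s * (τ⁻¹ * ρ) = ρ
        rw [h1, mul_inv_cancel_left]
      show (⟨g.s * x0.s, fun i j => x0.z i j + S κ g.a (g.s * x0.s) i j⟩ : Pt k p I J) = ⟨ρ, w⟩
      rw [h4]
      congr 1
      rw [← h2]
      funext i j
      simp [hx0]
  have hform : ∀ g : Gp k p I, ∑ x, v x * g.a i x = ∑ j, u j * S κ g.a ρ i j := by
    intro g
    rw [← Equiv.sum_comp ρ (fun x => v x * g.a i x)]
    simp only [hu, S, Finset.mul_sum]
    rw [← Finset.sum_fiberwise_of_maps_to (s := univ) (t := univ) (g := κ)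
      (fun _ _ => mem_univ _)]
    refine Finset.sum_congr rfl (fun j _ => ?_)
    refine Finset.sum_congr rfl (fun x hx => ?_)
    rw [(Finset.mem_filter.1 hx).2]
  -- count lemma
  have hcount : ∀ (P : ((i : Fin k) → J → ZMod (p i)) → Prop) [DecidablePred P]
      [DecidablePred (fun g : ι => (F g).s = τ ∧ P (S κ (F g).a ρ))],
      (T.filter (fun g => (F g).s = τ ∧ P (S κ (F g).a ρ))).card * N
        = (univ.filter (fun w => P w)).card * T.card := by
    intro P _ _
    have h1 : (T.filter (fun g => (F g).s = τ ∧ P (S κ (F g).a ρ))).card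
        = ∑ w ∈ univ.filter (fun w => P w),
          (T.filter (fun g => (act κ).smul (F g) x0 = (⟨ρ, w⟩ : Pt k p I J))).card := by
      rw [Finset.card_eq_sum_card_fiberwise (f := fun g : ι => S κ (F g).a ρ)
        (t := univ.filter (fun w => P w))]
      · refine Finset.sum_congr rfl (fun w hw => ?_)
        have hw' : P w := (Finset.mem_filter.1 hw).2
        congr 1
        ext g
        simp only [Finset.mem_filter, hiff]
        constructor
        · rintro ⟨⟨h1, h2, _⟩, h3⟩
          exact ⟨h1, h2, h3⟩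
        · rintro ⟨h1, h2, h3⟩
          exact ⟨⟨h1, h2, h3 ▸ hw'⟩, h3⟩
      · intro g hg
        have := (Finset.mem_filter.1 (Finset.mem_coe.1 hg)).2.2
        simp [this]
    rw [h1, Finset.sum_mul, Finset.sum_congr rfl (fun w _ => hT x0 ⟨ρ, w⟩), Finset.sum_const,
      smul_eq_mul]
  -- the functional
  let φ : ((i : Fin k) → J → ZMod (p i)) →+ ZMod (p i) :=
    { toFun := fun w => ∑ j, u j * w i j
      map_zero' := by simp
      map_add' := fun a b => by simp [mul_add, Finset.sum_add_distrib] }
  have hφ : Function.Surjective φ := by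
    intro d
    obtain ⟨w, hw⟩ := form_surj u hu0 d
    refine ⟨fun i' => if h : i' = i then (h ▸ w) else 0, ?_⟩
    show ∑ j, u j * _ = d
    rw [← hw]
    show _ = ∑ x, w x * u x
    refine Finset.sum_congr rfl (fun j _ => ?_)
    simp [mul_comm]
  have hfib := card_fiber_mul φ hφ c
  have hc1 : (T.filter (fun g => (F g).s = τ ∧ ∑ j, u j * S κ (F g).a ρ i j = c)).card * N
      = (univ.filter (fun w : ((i : Fin k) → J → ZMod (p i)) =>
            ∑ j, u j * w i j = c)).card * T.card :=
    hcount (fun w => ∑ j, u j * w i j = c)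
  have hc2 : (T.filter (fun g => (F g).s = τ)).card * N
      = Fintype.card ((i : Fin k) → J → ZMod (p i)) * T.card := by
    have h : (T.filter (fun g => (F g).s = τ ∧ True)).card * N
      = (univ.filter (fun _ : ((i : Fin k) → J → ZMod (p i)) => True)).card * T.card :=
      hcount (fun _ => True)
    have h1 : (T.filter (fun g => (F g).s = τ)).card
        = (T.filter (fun g => (F g).s = τ ∧ True)).card := by
      congr 1
      ext g
      simp
    rw [h1, h]
    simp
  have e1 : (T.filter (fun g => (F g).s = τ)).filter (fun g => ∑ x, v x * (F g).a i x = c)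
      = T.filter (fun g => (F g).s = τ ∧ ∑ j, u j * S κ (F g).a ρ i j = c) := by
    ext g
    simp only [Finset.mem_filter, hform, and_assoc]
  have e4 : (univ.filter (fun w : ((i : Fin k) → J → ZMod (p i)) => ∑ j, u j * w i j = c)).card
      * p i = Fintype.card ((i : Fin k) → J → ZMod (p i)) := hfib
  have e5 : ((T.filter (fun g => (F g).s = τ)).filter
      (fun g => ∑ x, v x * (F g).a i x = c)).card * p i * N
      = (T.filter (fun g => (F g).s = τ)).card * N := by
    rw [e1]
    calc (T.filter (fun g => (F g).s = τ ∧ ∑ j, u j * S κ (F g).a ρ i j = c)).card * p i * N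
        = ((T.filter (fun g => (F g).s = τ ∧ ∑ j, u j * S κ (F g).a ρ i j = c)).card * N)
          * p i := by ring
      _ = ((univ.filter (fun w : ((i : Fin k) → J → ZMod (p i)) =>
            ∑ j, u j * w i j = c)).card * T.card) * p i := by rw [hc1]
      _ = ((univ.filter (fun w : ((i : Fin k) → J → ZMod (p i)) =>
            ∑ j, u j * w i j = c)).card * p i) * T.card := by ring
      _ = Fintype.card ((i : Fin k) → J → ZMod (p i)) * T.card := by rw [e4]
      _ = (T.filter (fun g => (F g).s = τ)).card * N := hc2.symm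
  exact Nat.eq_of_mul_eq_mul_right hN e5

theorem card_lower [∀ i, Fact (p i).Prime] (hp : Function.Injective p) (κ : I → J)
    (hcol : ∀ (i : Fin k) (v : I → ZMod (p i)),
      ∃ (ρ : Equiv.Perm I) (u : J → ZMod (p i)), ∀ x, v (ρ x) = u (κ x))
    {ι : Type} (T : Finset ι) (F : ι → Gp k p I) (N : ℕ) (hN : 0 < N) (hne : T.Nonempty)
    (hT : ∀ x y : Pt k p I J, ∀ [DecidablePred (fun g : ι => (act κ).smul (F g) x = y)],
      (T.filter (fun g => (act κ).smul (F g) x = y)).card * N = T.card) :
    (∏ i, p i) ^ (Fintype.card I) ≤ T.card := by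
  classical
  obtain ⟨g0, hg0⟩ := hne
  have h1 : (∏ i, (p i) ^ (Fintype.card I)) ∣ (T.filter (fun g => (F g).s = (F g0).s)).card := by
    apply Fintype.prod_dvd_of_isRelPrime
    · intro i j hij
      have : Nat.Coprime (p i ^ (Fintype.card I)) (p j ^ (Fintype.card I)) :=
        Nat.Coprime.pow _ _
          ((Nat.coprime_primes (Fact.out : (p i).Prime) (Fact.out : (p j).Prime)).2
            (fun h => hij (hp h)))
      exact Nat.coprime_iff_isRelPrime.1 this
    · intro i
      exact key κ hcol T F N hN hT (F g0).s i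
  rw [Finset.prod_pow] at h1
  have h2 : 0 < (T.filter (fun g => (F g).s = (F g0).s)).card :=
    Finset.card_pos.2 ⟨g0, by simp [hg0]⟩
  exact le_trans (Nat.le_of_dvd h2 h1) (Finset.card_filter_le _ _)

/-- if one fibre of `κ` is a single point, the action is faithful -/
theorem faithful (κ : I → J) (x0 : I) (hx0 : ∀ x, κ x = κ x0 → x = x0) :
    @FaithfulSMul (Gp k p I) (Pt k p I J) (act κ).toSMul := by
  letI := act (k := k) (p := p) κ
  refine ⟨fun {g h} hgh => ?_⟩
  have hs : g.s = h.s := by
    have h1 := congrArg Pt.s (hgh (⟨1, fun _ _ => 0⟩ : Pt k p I J))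
    have h2 : g.s * 1 = h.s * 1 := h1
    simpa using h2
  apply Gp.ext _ hs
  funext i y
  have hfil : univ.filter (fun x => κ x = κ x0) = {x0} := by
    ext x
    simp only [mem_filter, mem_univ, true_and, mem_singleton]
    exact ⟨fun h => hx0 x h, fun h => by rw [h]⟩
  have h1 := congrArg Pt.z (hgh (⟨g.s⁻¹ * Equiv.swap x0 y, fun _ _ => 0⟩ : Pt k p I J))
  have h2 : (0 : ZMod (p i)) + S κ g.a (g.s * (g.s⁻¹ * Equiv.swap x0 y)) i (κ x0)
      = 0 + S κ h.a (h.s * (g.s⁻¹ * Equiv.swap x0 y)) i (κ x0) := by
    have := congrFun (congrFun h1 i) (κ x0)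
    exact this
  rw [← hs] at h2
  simp only [zero_add, mul_inv_cancel_left, S, hfil, sum_singleton, Equiv.swap_apply_left] at h2
  exact h2

end Pool.Agent.KS6_62.Unif
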